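import Pool.Agent.Results.MP_fe4852_pr.LowerBound
import Pool.Agent.V11327.DBupper

/-!
# Disagreement bounds are closed under pointwise minimum

Every disagreement bound is at least `2 x / (1 + x)` on `[0, 1]`, and `2 x / (1 + x)` is itself a
disagreement bound.
-/

set_option autoImplicit false

open MeasureTheory
open Pool.Agent.V11327.DB

namespace Pool.Agent.Results.MP_4c6e08_pr.MinClosed

theorem tv_le_one (m m' : Measure ℝ) [IsProbabilityMeasure m] [IsProbabilityMeasure m'] :
    tv m m' ≤ 1 := by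
  refine Real.iSup_le (fun B => ?_) zero_le_one
  have h1 : m.real B.1 ≤ 1 := measureReal_le_one
  have h2 : m'.real B.1 ≤ 1 := measureReal_le_one
  have h3 : 0 ≤ m.real B.1 := measureReal_nonneg
  have h4 : 0 ≤ m'.real B.1 := measureReal_nonneg
  exact abs_le.2 ⟨by linarith, by linarith⟩

/-- The pointwise minimum of two disagreement bounds is a disagreement bound. -/
theorem result (f₁ f₂ : ℝ → ℝ) (h₁ : DisagreementBound f₁) (h₂ : DisagreementBound f₂) :
    DisagreementBound (fun x => min (f₁ x) (f₂ x)) := by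
  refine ⟨fun x hx => ?_, ?_⟩
  · have a := h₁.1 x hx
    have b := h₂.1 x hx
    exact ⟨le_min a.1 b.1, (min_le_left _ _).trans a.2⟩
  · intro ι _ μ hμ
    obtain ⟨Ω, mΩ, P, X, hP, hX, hlaw, hdis⟩ := upper.2 ι μ hμ
    refine ⟨Ω, mΩ, P, X, hP, hX, hlaw, fun i j hij => (hdis i j hij).trans ?_⟩
    have ht : tv (μ i) (μ j) ∈ Set.Icc (0 : ℝ) 1 := ⟨tv_nonneg _ _, tv_le_one _ _⟩
    exact le_min (Pool.Agent.Results.MP_fe4852_pr.LowerBound.result f₁ h₁ _ ht)
      (Pool.Agent.Results.MP_fe4852_pr.LowerBound.result f₂ h₂ _ ht)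

end Pool.Agent.Results.MP_4c6e08_pr.MinClosed
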